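import Pool.Agent.Q27.HC.Act

/-!
# Listing sequences for generating sets that split into two parts of commuting involutions

EVERY finite group `G ≠ 1` generated by two sets `S1`, `S2` of involutions, such that involutions of
the same set commute, has a closed listing sequence (Hamiltonian cycle of the Cayley graph) with
terms in `S1 ∪ S2`, and so for every larger generating set.  This covers all nontrivial finite
quotients of all Coxeter groups with bipartite diagram, for instance the automorphism groups of all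
finite regular abstract polytopes with their distinguished generators, in every rank.  More
generally any two subgroups with the pairing property may be combined.
-/

namespace Pool.Agent.Results.MP_688fd0_co.CommutingInvolutions

universe u

/-- `l = [a_1, …, a_n]` is a listing sequence of elements of `A`: its length `n` is `|G|`, all its
terms lie in `A`, and the partial products `a_1 ⋯ a_k`, `1 ≤ k ≤ n`, are pairwise distinct. -/
def Listing {G : Type*} [Group G] (A : Set G) (l : List G) : Prop :=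
  l.length = Nat.card G ∧ (∀ a ∈ l, a ∈ A) ∧
    ∀ i j : ℕ, 1 ≤ i → i ≤ Nat.card G → 1 ≤ j → j ≤ Nat.card G →
      (l.take i).prod = (l.take j).prod → i = j

/-- `S` consists of pairwise commuting involutions (elements of order exactly two). -/
def CommInv {G : Type*} [Group G] (S : Set G) : Prop :=
  (∀ s ∈ S, s ≠ 1 ∧ s * s = 1) ∧ ∀ s ∈ S, ∀ t ∈ S, s * t = t * s

/-- `S` consists of pairwise commuting involutions without fixed points of the set `X`. -/
def CommMaps {X : Type*} (S : Set (X → X)) : Prop :=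
  (∀ s ∈ S, ∀ x, s (s x) = x ∧ s x ≠ x) ∧ ∀ s ∈ S, ∀ t ∈ S, ∀ x, s (t x) = t (s x)

/-- The pairing property of `Cay(H, B)`: for every perfect matching `f` of the complete graph on the
elements of `H` (given as a fixed-point-free involution of the set `H`) there is a perfect matching
`g` of `Cay(H, B)` such that the union of `f` and `g` is connected. -/
def Pairing (H : Type*) [Group H] (B : Set H) : Prop :=
  ∀ f : H → H, (∀ x, f (f x) = x ∧ f x ≠ x) →
    ∃ g : H → H, (∀ x, g (g x) = x ∧ g x ≠ x) ∧ (∀ x, x⁻¹ * g x ∈ B) ∧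
      ∀ x y : H, Relation.EqvGen (fun a b => b = f a ∨ b = g a) x y

/-- See the file header. -/
theorem result :
    -- (1) two sets of commuting involutions
    (∀ (G : Type u) [Group G] [Finite G] [Nontrivial G] (A S1 S2 : Set G), S1 ⊆ A → S2 ⊆ A →
      CommInv S1 → CommInv S2 → Subgroup.closure (S1 ∪ S2) = ⊤ →
      ∃ l : List G, Listing A l ∧ l.prod = 1) ∧
    -- (2) one set of commuting involutions, and the nonidentity elements of a subgroup of even order
    (∀ (G : Type u) [Group G] [Finite G] (A S : Set G) (K : Subgroup G), S ⊆ A → CommInv S →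
      (∀ k ∈ K, k ≠ 1 → k ∈ A) → Even (Nat.card K) → Subgroup.closure (S ∪ K) = ⊤ →
      ∃ l : List G, Listing A l ∧ l.prod = 1) ∧
    -- (3) two subgroups of even order with the pairing property
    (∀ (G : Type u) [Group G] [Finite G] (A : Set G) (H1 H2 : Subgroup G), Even (Nat.card H1) →
      Even (Nat.card H2) → Pairing H1 {h | (h : G) ∈ A} → Pairing H2 {h | (h : G) ∈ A} →
      H1 ⊔ H2 = ⊤ → ∃ l : List G, Listing A l ∧ l.prod = 1) ∧
    -- (4) linearly ordered involutions, commuting when not adjacent (regular polytopes, all ranks)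
    (∀ (G : Type u) [Group G] [Finite G] (n : ℕ) (r : ℕ → G), 1 ≤ n →
      (∀ i < n, r i ≠ 1 ∧ r i * r i = 1) →
      (∀ i < n, ∀ j < n, i + 2 ≤ j → r i * r j = r j * r i) →
      Subgroup.closure {g | ∃ i < n, g = r i} = ⊤ →
      ∃ l : List G, Listing {g | ∃ i < n, g = r i} l ∧ l.prod = 1) ∧
    -- (5) two families of commuting involutions without fixed points on a finite set, which
    -- together connect the set: a Hamiltonian cycle of the corresponding graph
    (∀ (X : Type u) [Finite X] [Nontrivial X] (F1 F2 : Set (X → X)), CommMaps F1 → CommMaps F2 →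
      (∀ x y, Relation.EqvGen (fun a b => ∃ t ∈ F1 ∪ F2, b = t a) x y) → ∀ x0 : X,
      ∃ w : ℕ → X, w 0 = x0 ∧ (∀ k, ∃ t ∈ F1 ∪ F2, w (k + 1) = t (w k)) ∧ w (Nat.card X) = x0 ∧
        ∀ i j, i < Nat.card X → j < Nat.card X → w i = w j → i = j) := by
  have conv : ∀ (G : Type u) [Group G] [Finite G] (A : Set G) (H1 H2 : Subgroup G),
      Even (Nat.card H1) → Even (Nat.card H2) → H1 ⊔ H2 = ⊤ →
      Q27.HC.Pairing H1 {h | (h : G) ∈ A} → Q27.HC.Pairing H2 {h | (h : G) ∈ A} →
      ∃ l : List G, Listing A l ∧ l.prod = 1 := by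
    intro G _ _ A H1 H2 e1 e2 hG P1 P2
    obtain ⟨w, h0, hA, hn, hi⟩ := Q27.HC.closed_walk A H1 H2 e1 e2 hG P1 P2
    obtain ⟨l, hl, hlA, hld, hlp⟩ := Q27.HC.list_of_walk A h0 hA hn hi
    exact ⟨l, ⟨hl, hlA, hld⟩, hlp⟩
  have one : ∀ (G : Type u) [Group G] [Finite G] [Nontrivial G] (A S1 S2 : Set G), S1 ⊆ A →
      S2 ⊆ A → CommInv S1 → CommInv S2 → Subgroup.closure (S1 ∪ S2) = ⊤ →
      ∃ l : List G, Listing A l ∧ l.prod = 1 := by
    intro G _ _ _ A S1 S2 hS1 hS2 h1 h2 hG
    by_cases n1 : S1.Nonempty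
    · obtain ⟨e1, P1⟩ := Q27.HC.part_comm A S1 n1 hS1 h1.1 h1.2
      by_cases n2 : S2.Nonempty
      · obtain ⟨e2, P2⟩ := Q27.HC.part_comm A S2 n2 hS2 h2.1 h2.2
        refine conv G A _ _ e1 e2 ?_ P1 P2
        rw [← Subgroup.closure_union]
        exact hG
      · rw [Set.not_nonempty_iff_eq_empty] at n2
        refine conv G A _ _ e1 e1 ?_ P1 P1
        rw [sup_idem]
        rw [n2, Set.union_empty] at hG
        exact hG
    · rw [Set.not_nonempty_iff_eq_empty] at n1
      by_cases n2 : S2.Nonempty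
      · obtain ⟨e2, P2⟩ := Q27.HC.part_comm A S2 n2 hS2 h2.1 h2.2
        refine conv G A _ _ e2 e2 ?_ P2 P2
        rw [sup_idem]
        rw [n1, Set.empty_union] at hG
        exact hG
      · rw [Set.not_nonempty_iff_eq_empty] at n2
        rw [n1, n2, Set.union_empty, Subgroup.closure_empty] at hG
        exact absurd hG bot_ne_top
  refine ⟨one, ?_, ?_, ?_, ?_⟩
  · intro G _ _ A S K hS h1 hK e hG
    have P2 := Q27.HC.part_complete A K hK
    by_cases n1 : S.Nonempty
    · obtain ⟨e1, P1⟩ := Q27.HC.part_comm A S n1 hS h1.1 h1.2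
      refine conv G A _ _ e1 e ?_ P1 P2
      rw [Subgroup.closure_union, Subgroup.closure_eq] at hG
      exact hG
    · rw [Set.not_nonempty_iff_eq_empty] at n1
      refine conv G A _ _ e e ?_ P2 P2
      rw [sup_idem]
      rw [n1, Set.empty_union, Subgroup.closure_eq] at hG
      exact hG
  · intro G _ _ A H1 H2 e1 e2 P1 P2 hG
    exact conv G A H1 H2 e1 e2 hG P1 P2
  · intro G _ _ n r hn hr hc hG
    have : Nontrivial G := ⟨⟨r 0, 1, (hr 0 (by omega)).1⟩⟩
    have hcc : ∀ i < n, ∀ j < n, i % 2 = j % 2 → r i * r j = r j * r i := by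
      intro i hi j hj hij
      rcases Nat.lt_trichotomy i j with h | h | h
      · exact hc i hi j hj (by omega)
      · rw [h]
      · exact (hc j hj i hi (by omega)).symm
    refine one G _ {g | ∃ i < n, i % 2 = 0 ∧ g = r i} {g | ∃ i < n, i % 2 = 1 ∧ g = r i} ?_ ?_ ?_ ?_ ?_
    · rintro g ⟨i, hi, _, rfl⟩
      exact ⟨i, hi, rfl⟩
    · rintro g ⟨i, hi, _, rfl⟩
      exact ⟨i, hi, rfl⟩
    · refine ⟨?_, ?_⟩
      · rintro g ⟨i, hi, _, rfl⟩
        exact hr i hi
      · rintro g ⟨i, hi, h, rfl⟩ g' ⟨j, hj, h', rfl⟩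
        exact hcc i hi j hj (by omega)
    · refine ⟨?_, ?_⟩
      · rintro g ⟨i, hi, _, rfl⟩
        exact hr i hi
      · rintro g ⟨i, hi, h, rfl⟩ g' ⟨j, hj, h', rfl⟩
        exact hcc i hi j hj (by omega)
    · rw [← top_le_iff, ← hG]
      apply Subgroup.closure_mono
      rintro g ⟨i, hi, rfl⟩
      rcases Nat.mod_two_eq_zero_or_one i with h | h
      · exact Or.inl ⟨i, hi, h, rfl⟩
      · exact Or.inr ⟨i, hi, h, rfl⟩
  · intro X _ _ F1 F2 h1 h2 hc x0
    exact Q27.HC.walk_of_families F1 F2
      ⟨fun t ht x => (h1.1 t ht x).1, fun t ht x => (h1.1 t ht x).2, h1.2⟩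
      ⟨fun t ht x => (h2.1 t ht x).1, fun t ht x => (h2.1 t ht x).2, h2.2⟩ hc x0

end Pool.Agent.Results.MP_688fd0_co.CommutingInvolutions
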