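import Pool.Agent.Q112.CH.Conj

/-!
# Listing sequences for all generating sets that contain a conjugacy class

Let `A` be a symmetric generating set of a finite group `G`, and let `A` contain all conjugates of
an element `a ≠ 1` that is not a central involution. Then there is a closed listing sequence of
elements of `A`: the Cayley graph has a Hamiltonian cycle. There is no condition on the other
elements of `A` and on the group. More generally it is enough that `A` contains a symmetric
conjugation-closed set that generates a subgroup with at least three elements.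

Proof idea. Let `N` be the normal subgroup generated by the conjugation-closed set `A0`. The Cayley
graph of `N` with respect to `A0` has a Hamiltonian cycle (`Q238.RS`). The connected Cayley graph of
`G ⧸ N` of degree `d` is `d`-edge-connected (Mader); so the deletion of a set `S` of vertices leaves
at most `|S|` components, and the graph has a spanning tree of maximum degree at most three (Win;
here by the augmentation argument of Fürer and Raghavachari). The fibres are merged along this tree:
for an edge `x, xb` of a Hamiltonian cycle of a fibre, `b ∈ A0`, the fibre of `xa` has a Hamiltonian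
path from `xa` to `xba`, because `a⁻¹ b a ∈ A0`. A fibre with at least three elements has enough
edges for its at most three neighbours in the tree.
-/

set_option autoImplicit false

namespace Pool.Agent.Results.MP_688fd0_co.ConjugacyClasses

universe u

/-- `l = [a_1, …, a_n]` is a listing sequence of elements of `A`: its length `n` is `|G|`, all its
terms lie in `A`, and the partial products `a_1 ⋯ a_k`, `1 ≤ k ≤ n`, are pairwise distinct. -/
def Listing {G : Type*} [Group G] (A : Set G) (l : List G) : Prop :=
  l.length = Nat.card G ∧ (∀ a ∈ l, a ∈ A) ∧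
    ∀ i j : ℕ, 1 ≤ i → i ≤ Nat.card G → 1 ≤ j → j ≤ Nat.card G →
      (l.take i).prod = (l.take j).prod → i = j

/-- `A` is symmetric. -/
def Symm {G : Type*} [Group G] (A : Set G) : Prop := ∀ a ∈ A, a⁻¹ ∈ A

/-- `A` is closed under conjugation by all elements of the group. -/
def ConjClosed {G : Type*} [Group G] (A : Set G) : Prop := ∀ a ∈ A, ∀ g : G, g * a * g⁻¹ ∈ A

/-- `a` is a central involution. -/
def CentralInvolution {G : Type*} [Group G] (a : G) : Prop := a * a = 1 ∧ ∀ g : G, g * a = a * g

/-- Let `A` be a symmetric generating set of a finite group `G`.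
(1) If `A` contains a symmetric conjugation-closed set `A0` that generates a subgroup with at least
three elements, then there is a closed listing sequence of elements of `A` (one with product `1`,
a Hamiltonian cycle of the Cayley graph).
(2) In particular there is one if `A` contains all conjugates of some element `a ≠ 1` that is not a
central involution. -/
theorem result :
    (∀ (G : Type u) [Group G] [Finite G] (A A0 : Set G), Symm A → Subgroup.closure A = ⊤ →
      A0 ⊆ A → Symm A0 → ConjClosed A0 → 3 ≤ Nat.card (Subgroup.closure A0) →
      ∃ l : List G, Listing A l ∧ l.prod = 1) ∧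
    (∀ (G : Type u) [Group G] [Finite G] (A : Set G), Symm A → Subgroup.closure A = ⊤ →
      ∀ a ∈ A, a ≠ 1 → ¬ CentralInvolution a → (∀ g : G, g * a * g⁻¹ ∈ A) →
      ∃ l : List G, Listing A l ∧ l.prod = 1) := by
  have main : ∀ (G : Type u) [Group G] [Finite G] (A A0 : Set G), Symm A →
      Subgroup.closure A = ⊤ → A0 ⊆ A → Symm A0 → ConjClosed A0 →
      3 ≤ Nat.card (Subgroup.closure A0) → ∃ l : List G, Listing A l ∧ l.prod = 1 := by
    intro G _ _ A A0 hs hg hsub h0s h0c hcard
    exact Q238.RS.closed_listing_of_hcyc (Pool.Agent.Q112.CH.hcyc_normal_subset hs hg hsub h0s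
      (Q238.RS.conj_flip h0c) hcard)
  refine ⟨main, ?_⟩
  intro G _ _ A hs hg a ha ha1 hnc hconj
  set A0 : Set G := {x | ∃ g : G, x = g * a * g⁻¹ ∨ x = (g * a * g⁻¹)⁻¹} with hA0
  have hsub : A0 ⊆ A := by
    rintro x ⟨g, rfl | rfl⟩
    · exact hconj g
    · exact hs _ (hconj g)
  have h0s : Symm A0 := by
    rintro x ⟨g, rfl | rfl⟩
    · exact ⟨g, Or.inr rfl⟩
    · exact ⟨g, Or.inl (inv_inv _)⟩
  have h0c : ConjClosed A0 := by
    rintro x ⟨g, rfl | rfl⟩ h
    · exact ⟨h * g, Or.inl (by group)⟩
    · exact ⟨h * g, Or.inr (by group)⟩
  refine main G A A0 hs hg hsub h0s h0c ?_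
  -- a third element
  have haN : a ∈ Subgroup.closure A0 := Subgroup.subset_closure ⟨1, Or.inl (by simp)⟩
  obtain ⟨b, hbN, hb1, hba⟩ : ∃ b ∈ Subgroup.closure A0, b ≠ 1 ∧ b ≠ a := by
    by_cases h2 : a * a = 1
    · have h3 : ∃ g : G, g * a ≠ a * g := by
        by_contra hno
        push Not at hno
        exact hnc ⟨h2, hno⟩
      obtain ⟨g, hga⟩ := h3
      refine ⟨g * a * g⁻¹, Subgroup.subset_closure ⟨g, Or.inl rfl⟩, ?_, ?_⟩
      · intro h
        apply ha1
        have h4 : a = g⁻¹ * (g * a * g⁻¹) * g := by group
        rw [h4, h]
        group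
      · intro h
        apply hga
        rw [mul_inv_eq_iff_eq_mul] at h
        exact h
    · refine ⟨a⁻¹, inv_mem haN, ?_, ?_⟩
      · intro h
        exact ha1 (inv_eq_one.1 h)
      · intro h
        apply h2
        rw [← inv_eq_iff_mul_eq_one]
        exact h
  have hset : ({1, a, b} : Set G) ⊆ (Subgroup.closure A0 : Set G) := by
    rintro x (rfl | rfl | rfl)
    · exact one_mem _
    · exact haN
    · exact hbN
  have h5 : ({1, a, b} : Set G).ncard = 3 := by
    rw [Set.ncard_eq_three]
    exact ⟨1, a, b, Ne.symm ha1, Ne.symm hb1, Ne.symm hba, rfl⟩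
  have h6 := Set.ncard_le_ncard hset (Set.toFinite _)
  rw [h5] at h6
  exact h6

end Pool.Agent.Results.MP_688fd0_co.ConjugacyClasses
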