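import Pool.Agent.Q112.CH.Ham

/-!
# Listing sequences from Hamilton-connected normal subgroups

Let `A` be a symmetric generating set of a finite group `G` and `N` a normal subgroup with at least
three elements whose Cayley graph with respect to `A ∩ N` is Hamilton-connected (any two elements
are joined by a Hamiltonian path). Then there is a closed listing sequence of elements of `A`: the
Cayley graph of `G` has a Hamiltonian cycle. There is no condition on the quotient `G ⧸ N`. In
particular (by Ore's theorem, proved here) it is enough that `A` contains more than half as many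
elements of `N \ {1}` as `N` has elements. More generally it is enough to have Hamiltonian paths
from `1` to `b` and to `a⁻¹ b a` for the elements `b` of a symmetric subset `B` of `A ∩ N` and the
elements `a` of `A`.

Proof idea. The connected Cayley graph of `G ⧸ N` has a spanning tree of maximum degree at most
three (Mader's theorem on the edge connectivity, and Win's theorem). The cosets of `N` are merged
along this tree: a Hamiltonian cycle of the cosets merged so far contains an edge `x, xb`, `b ∈ B`,
and it is replaced by the edges `x, xa` and `xb, xba` and a Hamiltonian path of the coset `x a N`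
from `xa` to `xba = xa (a⁻¹ b a)`.
-/

set_option autoImplicit false

namespace Pool.Agent.Results.MP_688fd0_co.HamiltonConnectedNormal

universe u

/-- `l = [a_1, …, a_n]` is a listing sequence of elements of `A`: its length `n` is `|G|`, all its
terms lie in `A`, and the partial products `a_1 ⋯ a_k`, `1 ≤ k ≤ n`, are pairwise distinct. -/
def Listing {G : Type*} [Group G] (A : Set G) (l : List G) : Prop :=
  l.length = Nat.card G ∧ (∀ a ∈ l, a ∈ A) ∧
    ∀ i j : ℕ, 1 ≤ i → i ≤ Nat.card G → 1 ≤ j → j ≤ Nat.card G →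
      (l.take i).prod = (l.take j).prod → i = j

/-- `A` is symmetric. -/
def Symm {G : Type*} [Group G] (A : Set G) : Prop := ∀ a ∈ A, a⁻¹ ∈ A

/-- There is a sequence `b_1, …, b_{n-1}` of elements of `B`, `n = |N|`, with product `y` whose
partial products `b_1 ⋯ b_k`, `0 ≤ k < n`, are pairwise distinct. For `B ⊆ N` this says that the
Cayley graph of `N` with respect to `B` has a Hamiltonian path from `1` to `y`. -/
def HamPath {G : Type*} [Group G] (N : Subgroup G) (B : Set G) (y : G) : Prop :=
  ∃ l : List G, l.length + 1 = Nat.card N ∧ (∀ b ∈ l, b ∈ B) ∧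
    (∀ i j : ℕ, i < Nat.card N → j < Nat.card N → (l.take i).prod = (l.take j).prod → i = j) ∧
    l.prod = y

/-- Let `A` be a symmetric generating set of a finite group `G` and `N` a normal subgroup of `G`.
In each of the following cases there is a closed listing sequence of elements of `A` (one with
product `1`, a Hamiltonian cycle of the Cayley graph).
(1) `|N| ≥ 3`, and there is a nonempty symmetric set `B ⊆ A ∩ N` such that for all `b ∈ B` and
`a ∈ A` the Cayley graph of `N` with respect to `B` has Hamiltonian paths from `1` to `b` and from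
`1` to `a⁻¹ b a`.
(2) `|N| ≥ 3`, and the Cayley graph of `N` with respect to `A ∩ N` is Hamilton-connected.
(3) `A` contains at least `(|N| + 1) / 2` elements of `N` other than `1`. -/
theorem result (G : Type u) [Group G] [Finite G] (A : Set G) (hs : Symm A)
    (hg : Subgroup.closure A = ⊤) (N : Subgroup G) (hN : N.Normal) :
    (3 ≤ Nat.card N →
      (∃ B : Set G, B ⊆ A ∧ B ⊆ (N : Set G) ∧ Symm B ∧ B.Nonempty ∧
        ∀ b ∈ B, HamPath N B b ∧ ∀ a ∈ A, HamPath N B (a⁻¹ * b * a)) →
      ∃ l : List G, Listing A l ∧ l.prod = 1) ∧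
    (3 ≤ Nat.card N → (∀ y ∈ N, y ≠ 1 → HamPath N (A ∩ N) y) →
      ∃ l : List G, Listing A l ∧ l.prod = 1) ∧
    (Nat.card N + 1 ≤ 2 * ((A ∩ N) \ {1}).ncard →
      ∃ l : List G, Listing A l ∧ l.prod = 1) := by
  have h1 : 3 ≤ Nat.card N →
      (∃ B : Set G, B ⊆ A ∧ B ⊆ (N : Set G) ∧ Symm B ∧ B.Nonempty ∧
        ∀ b ∈ B, HamPath N B b ∧ ∀ a ∈ A, HamPath N B (a⁻¹ * b * a)) →
      ∃ l : List G, Listing A l ∧ l.prod = 1 := by
    rintro hcard ⟨B, hBA, hBN, hBs, hBne, hB⟩
    have hconv : ∀ y, HamPath N B y → Pool.Agent.Q112.CH.HPath B N 1 y := by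
      rintro y ⟨l, hl1, hl2, hl3, hl4⟩
      exact Pool.Agent.Q112.CH.hpath_of_list (fun b hb => hBN hb) hl1 hl2 hl3 hl4
    exact Q238.RS.closed_listing_of_hcyc (Pool.Agent.Q112.CH.lift_main hs hg hBA
      (fun b hb => hBN hb) hBs hBne (fun b hb => hconv _ (hB b hb).1)
      (fun b hb a ha => hconv _ ((hB b hb).2 a ha)) hcard)
  -- conjugates
  have hconj : ∀ b ∈ N, ∀ a : G, a⁻¹ * b * a ∈ N := by
    intro b hb a
    have h := hN.conj_mem b hb a⁻¹
    rwa [inv_inv] at h
  have hconj1 : ∀ b a : G, b ≠ 1 → a⁻¹ * b * a ≠ 1 := by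
    intro b a hb h
    apply hb
    have h2 : b = a * (a⁻¹ * b * a) * a⁻¹ := by group
    rw [h2, h]
    group
  -- the set `(A ∩ N) \ {1}` when there are Hamiltonian paths
  have h2 : 3 ≤ Nat.card N → (∀ y ∈ N, y ≠ 1 → HamPath N ((A ∩ N) \ {1}) y) →
      ∃ l : List G, Listing A l ∧ l.prod = 1 := by
    intro hcard hH
    refine h1 hcard ⟨(A ∩ N) \ {1}, fun b hb => hb.1.1, fun b hb => hb.1.2, ?_, ?_, ?_⟩
    · intro b hb
      refine ⟨⟨hs b hb.1.1, inv_mem hb.1.2⟩, ?_⟩
      intro h
      exact hb.2 (inv_eq_one.1 h)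
    · have hlt : 1 < Nat.card N := by omega
      obtain ⟨y, hy⟩ : ∃ y : N, y ≠ 1 := by
        have := (Finite.one_lt_card_iff_nontrivial (α := N)).1 hlt
        exact exists_ne 1
      obtain ⟨l, hl1, hl2, -, -⟩ := hH y y.2 fun h => hy (Subtype.ext h)
      have hl0 : 0 < l.length := by omega
      exact ⟨l[0], hl2 _ (List.getElem_mem hl0)⟩
    · intro b hb
      exact ⟨hH b hb.1.2 hb.2, fun a _ => hH _ (hconj b hb.1.2 a) (hconj1 b a hb.2)⟩
  refine ⟨h1, ?_, ?_⟩
  · intro hcard hH
    refine h2 hcard fun y hy hy1 => ?_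
    obtain ⟨l, hl1, hl2, hl3, hl4⟩ := hH y hy hy1
    refine ⟨l, hl1, ?_, hl3, hl4⟩
    intro b hb
    refine ⟨hl2 b hb, ?_⟩
    intro hb1
    obtain ⟨i, hi, hib⟩ := List.getElem_of_mem hb
    have hb1' : b = 1 := hb1
    have h3 := hl3 i (i + 1) (by omega) (by omega) (by
      rw [List.prod_take_succ l i hi, hib, hb1', mul_one])
    omega
  · intro hdeg
    have hcard : 3 ≤ Nat.card N := by
      have h3 : ((A ∩ N) \ {1}).ncard + 1 ≤ Nat.card N := by
        have h4 : ((A ∩ N) \ {1}).ncard + 1 = (insert 1 ((A ∩ N) \ {1})).ncard :=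
          (Set.ncard_insert_of_notMem (fun h => h.2 rfl) (Set.toFinite _)).symm
        rw [h4]
        refine Set.ncard_le_ncard ?_ (Set.toFinite _)
        rintro x (rfl | hx)
        · exact one_mem N
        · exact hx.1.2
      omega
    refine h2 hcard fun y hy hy1 => ?_
    exact Pool.Agent.Q112.CH.ore_list (B := (A ∩ N) \ {1}) (fun b hb => hb.1.2)
      (fun b hb => ⟨⟨hs b hb.1.1, inv_mem hb.1.2⟩, fun h => hb.2 (inv_eq_one.1 h)⟩)
      (fun h => h.2 rfl) hdeg hy hy1

end Pool.Agent.Results.MP_688fd0_co.HamiltonConnectedNormal
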