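import Pool.Agent.Q238.RS.Final

/-!
# Listing sequences for generating sets that contain conjugation-closed sets

For EVERY finite group: a conjugation-closed symmetric generating set admits a closed listing
sequence (a Hamiltonian cycle of the Cayley graph); and a symmetric generating set that contains a
conjugation-closed symmetric set `A0` generating a (normal) subgroup `N ≠ 1` does so as soon as few
further elements are needed, for instance when the index of `N` is less than `2 ^ |N|`.  A listing
sequence for `A` exists as soon as one exists for the image of `A` in `G ⧸ N`; so a counterexample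
of least order contains no conjugacy class other than `{1}`.
-/

namespace Pool.Agent.Results.MP_688fd0_co.NormalSubsets

universe u

/-- `l = [a_1, …, a_n]` is a listing sequence of elements of `A`: its length `n` is `|G|`, all its
terms lie in `A`, and the partial products `a_1 ⋯ a_k`, `1 ≤ k ≤ n`, are pairwise distinct. -/
def Listing {G : Type*} [Group G] (A : Set G) (l : List G) : Prop :=
  l.length = Nat.card G ∧ (∀ a ∈ l, a ∈ A) ∧
    ∀ i j : ℕ, 1 ≤ i → i ≤ Nat.card G → 1 ≤ j → j ≤ Nat.card G →
      (l.take i).prod = (l.take j).prod → i = j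

/-- `A` is symmetric. -/
def Symm {G : Type*} [Group G] (A : Set G) : Prop := ∀ a ∈ A, a⁻¹ ∈ A

/-- `A` is closed under conjugation by all elements of the group. -/
def ConjClosed {G : Type*} [Group G] (A : Set G) : Prop := ∀ a ∈ A, ∀ g : G, g * a * g⁻¹ ∈ A

/-- `(G, A)` is a counterexample to the statement of the question: `G` is finite, `A` is a nonempty
symmetric generating set, and there is no listing sequence of elements of `A`. -/
def Counterexample (G : Type u) [Group G] (A : Set G) : Prop :=
  Finite G ∧ A.Nonempty ∧ Symm A ∧ Subgroup.closure A = ⊤ ∧ ¬ ∃ l : List G, Listing A l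

theorem trivial_case {G : Type u} [Group G] [Subsingleton G] {A : Set G} (hA : A.Nonempty) :
    ∃ l : List G, Listing A l ∧ l.prod = 1 := by
  obtain ⟨a, ha⟩ := hA
  have hc : Nat.card G = 1 := Nat.card_unique
  refine ⟨[a], ⟨by simp [hc], ?_, ?_⟩, Subsingleton.elim _ _⟩
  · intro b hb
    rw [List.mem_singleton] at hb
    rw [hb]
    exact ha
  · intro i j hi hi' hj hj' _
    omega

/-- See the file header. -/
theorem result :
    -- (1) conjugation-closed generating sets of arbitrary finite groups: closed listing sequences
    (∀ (G : Type u) [Group G] [Finite G] (A : Set G), A.Nonempty → Symm A → ConjClosed A →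
      Subgroup.closure A = ⊤ → ∃ l : List G, Listing A l ∧ l.prod = 1) ∧
    -- (2) `A` contains a conjugation-closed `A0`, and fewer than `|⟨A0⟩|` further elements of `A`
    -- are needed to generate `G`: closed listing sequences
    (∀ (G : Type u) [Group G] [Finite G] (A A0 : Set G) (C : Finset G), Symm A → A0 ⊆ A →
      Symm A0 → ConjClosed A0 → Subgroup.closure A0 ≠ ⊥ → (∀ c ∈ C, c ∈ A) →
      Subgroup.closure (A0 ∪ (C : Set G)) = ⊤ → C.card < Nat.card (Subgroup.closure A0) →
      ∃ l : List G, Listing A l ∧ l.prod = 1) ∧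
    -- (3) the same when the index of `⟨A0⟩` is less than `2 ^ |⟨A0⟩|`
    (∀ (G : Type u) [Group G] [Finite G] (A A0 : Set G), Symm A → Subgroup.closure A = ⊤ →
      A0 ⊆ A → Symm A0 → ConjClosed A0 → Subgroup.closure A0 ≠ ⊥ →
      (Subgroup.closure A0).index < 2 ^ Nat.card (Subgroup.closure A0) →
      ∃ l : List G, Listing A l ∧ l.prod = 1) ∧
    -- (4) reduction to the quotient by `⟨A0⟩`
    (∀ (G : Type u) [Group G] [Finite G] (A A0 : Set G), A0 ⊆ A → Symm A0 → ConjClosed A0 →
      ∀ (N : Subgroup G) [N.Normal], Subgroup.closure A0 = N →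
      (∃ l : List (G ⧸ N), Listing ((QuotientGroup.mk : G → G ⧸ N) '' A) l) →
      ∃ l : List G, Listing A l) ∧
    -- (5) if `⟨A0⟩` contains the commutator subgroup, there is a listing sequence
    (∀ (G : Type u) [Group G] [Finite G] (A A0 : Set G), A.Nonempty → Symm A →
      Subgroup.closure A = ⊤ → A0 ⊆ A → Symm A0 → ConjClosed A0 →
      commutator G ≤ Subgroup.closure A0 → ∃ l : List G, Listing A l) ∧
    -- (6) in a counterexample of least order, `A` contains no conjugacy class other than `{1}`
    (∀ (G : Type u) [Group G] (A : Set G), Counterexample G A →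
      (∀ (K : Type u) [Group K] (B : Set K), Counterexample K B → Nat.card G ≤ Nat.card K) →
      ∀ a ∈ A, (∀ g : G, g * a * g⁻¹ ∈ A) → a = 1) := by
  refine ⟨?_, ?_, ?_, ?_, ?_, ?_⟩
  · intro G _ _ A hA hs hc hg
    by_cases hnt : Nontrivial G
    · exact Q238.RS.closed_listing_conj hs hc hg
    · rw [not_nontrivial_iff_subsingleton] at hnt
      exact trivial_case hA
  · intro G _ _ A A0 C hs hsub h0s h0c hne hC hcl hcard
    exact Q238.RS.closed_listing_few hs hsub h0s h0c C hC hcl hcard hne
  · intro G _ _ A A0 hs hg hsub h0s h0c hne hidx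
    exact Q238.RS.closed_listing_index hs hg hsub h0s h0c hne hidx
  · intro G _ _ A A0 hsub h0s h0c N _ hN h
    exact Q238.RS.listing_of_quotient hsub h0s h0c N hN h
  · intro G _ _ A A0 hA hs hg hsub h0s h0c hcomm
    exact Q238.RS.listing_of_commutator hA hs hg hsub h0s h0c hcomm
  · rintro G _ A ⟨hfin, hA, hs, hg, hno⟩ hmin a ha hconj
    by_contra ha1
    -- the conjugation-closed symmetric set generated by `a`
    set A0 : Set G := {x | ∃ g : G, x = g * a * g⁻¹ ∨ x = (g * a * g⁻¹)⁻¹} with hA0
    have hsub : A0 ⊆ A := by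
      rintro x ⟨g, rfl | rfl⟩
      · exact hconj g
      · exact hs _ (hconj g)
    have h0s : Symm A0 := by
      rintro x ⟨g, rfl | rfl⟩
      · exact ⟨g, Or.inr rfl⟩
      · exact ⟨g, Or.inl (inv_inv _)⟩
    have h0c : ConjClosed A0 := by
      rintro x ⟨g, rfl | rfl⟩ h
      · exact ⟨h * g, Or.inl (by group)⟩
      · exact ⟨h * g, Or.inr (by group)⟩
    have haA0 : a ∈ A0 := ⟨1, Or.inl (by simp)⟩
    have hN := Q238.RS.closure_normal h0c
    have hne : Subgroup.closure A0 ≠ ⊥ := by
      intro h
      rw [Subgroup.closure_eq_bot_iff] at h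
      exact ha1 (h haA0)
    apply hno
    refine Q238.RS.listing_of_quotient hsub h0s h0c (Subgroup.closure A0) rfl ?_
    by_contra hno2
    have hmk := QuotientGroup.mk'_surjective (Subgroup.closure A0)
    have hle := hmin (G ⧸ Subgroup.closure A0)
      ((QuotientGroup.mk : G → G ⧸ Subgroup.closure A0) '' A) ⟨inferInstance, hA.image _, by
        rintro _ ⟨x, hx, rfl⟩
        exact ⟨x⁻¹, hs x hx, rfl⟩, by
        have h1 := Subgroup.map_top_of_surjective (QuotientGroup.mk' (Subgroup.closure A0)) hmk
        rw [← hg, MonoidHom.map_closure] at h1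
        exact h1, hno2⟩
    have h1 : Nat.card G = Nat.card (G ⧸ Subgroup.closure A0)
        * Nat.card (Subgroup.closure A0) := Subgroup.card_eq_card_quotient_mul_card_subgroup _
    have h2 : 1 < Nat.card (Subgroup.closure A0) := by
      rw [Subgroup.one_lt_card_iff_ne_bot]
      exact hne
    have h3 : 0 < Nat.card (G ⧸ Subgroup.closure A0) := Nat.card_pos
    nlinarith

end Pool.Agent.Results.MP_688fd0_co.NormalSubsets
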